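import Mathlib

/-!
Marked groups and isomorphism classes of marked balls.
-/

set_option autoImplicit false

namespace Pool.Agent.X185.MB

/-- A marked `d`-generated group `(G, S)`, `S = (s_1, …, s_d)` an ordered generating tuple. -/
structure Marked (d : ℕ) : Type 1 where
  /-- the underlying set -/
  G : Type
  /-- the group structure -/
  [grp : Group G]
  /-- the generators -/
  S : Fin d → G
  /-- they generate -/
  gen : Subgroup.closure (Set.range S) = ⊤

attribute [instance] Marked.grp

section words

variable {d : ℕ} {H : Type*} [Group H]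

/-- The value of a letter. -/
def letter (T : Fin d → H) (p : Fin d × Bool) : H := if p.2 then T p.1 else (T p.1)⁻¹

/-- The value of a word in the generators and their inverses. -/
def ev (T : Fin d → H) (w : List (Fin d × Bool)) : H := (w.map (letter T)).prod

theorem ev_nil (T : Fin d → H) : ev T [] = 1 := rfl

theorem ev_append (T : Fin d → H) (u v : List (Fin d × Bool)) :
    ev T (u ++ v) = ev T u * ev T v := by
  unfold ev
  rw [List.map_append, List.prod_append]

theorem ev_cons (T : Fin d → H) (p : Fin d × Bool) (v : List (Fin d × Bool)) :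
    ev T (p :: v) = letter T p * ev T v := by
  unfold ev
  rw [List.map_cons, List.prod_cons]

theorem ev_singleton (T : Fin d → H) (p : Fin d × Bool) : ev T [p] = letter T p := by
  rw [ev_cons, ev_nil, mul_one]

/-- formal inverse of a word. -/
def winv (u : List (Fin d × Bool)) : List (Fin d × Bool) := (u.map (fun p => (p.1, !p.2))).reverse

theorem winv_length (u : List (Fin d × Bool)) : (winv u).length = u.length := by
  simp [winv]

theorem ev_winv (T : Fin d → H) (u : List (Fin d × Bool)) : ev T (winv u) = (ev T u)⁻¹ := by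
  induction u with
  | nil => simp [winv, ev]
  | cons p u ih =>
    have : winv (p :: u) = winv u ++ [(p.1, !p.2)] := by
      simp [winv]
    rw [this, ev_append, ev_singleton, ih, ev_cons, mul_inv_rev]
    congr 1
    unfold letter
    cases p.2 <;> simp

theorem ev_map {K : Type*} [Group K] (f : H →* K) (T : Fin d → H) (w : List (Fin d × Bool)) :
    f (ev T w) = ev (fun i => f (T i)) w := by
  induction w with
  | nil => exact map_one f
  | cons p w ih =>
    rw [ev_cons, ev_cons, map_mul, ih]
    congr 1
    unfold letter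
    cases p.2 <;> simp

end words

variable {d : ℕ}

/-- The elements of word length at most `n` with respect to `S ∪ S⁻¹`. -/
def ball (A : Marked d) (n : ℕ) : Set A.G :=
  {g | ∃ w : List (Fin d × Bool), w.length ≤ n ∧ ev A.S w = g}

theorem one_mem_ball (A : Marked d) (n : ℕ) : (1 : A.G) ∈ ball A n :=
  ⟨[], Nat.zero_le _, rfl⟩

/-- The marked balls of radius `n` of `A` and `B` are isomorphic: there is a bijection between
their vertex sets which sends the root to the root, and which preserves (in both directions) the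
edges `g → g s_i` with label `i`. -/
def BallIso (n : ℕ) (A B : Marked d) : Prop :=
  ∃ φ : ball A n ≃ ball B n, φ ⟨1, one_mem_ball A n⟩ = ⟨1, one_mem_ball B n⟩ ∧
    ∀ (g h : ball A n) (i : Fin d), (g : A.G) * A.S i = h ↔ (φ g : B.G) * B.S i = φ h

theorem BallIso.refl (n : ℕ) (A : Marked d) : BallIso n A A :=
  ⟨Equiv.refl _, rfl, fun _ _ _ => Iff.rfl⟩

theorem BallIso.symm {n : ℕ} {A B : Marked d} (h : BallIso n A B) : BallIso n B A := by
  obtain ⟨φ, h1, h2⟩ := h
  refine ⟨φ.symm, by rw [← h1, Equiv.symm_apply_apply], fun g h i => ?_⟩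
  rw [h2, Equiv.apply_symm_apply, Equiv.apply_symm_apply]

theorem BallIso.trans {n : ℕ} {A B C : Marked d} (h : BallIso n A B) (h' : BallIso n B C) :
    BallIso n A C := by
  obtain ⟨φ, h1, h2⟩ := h
  obtain ⟨ψ, h3, h4⟩ := h'
  refine ⟨φ.trans ψ, by rw [Equiv.trans_apply, h1, h3], fun g h i => ?_⟩
  rw [h2, h4]
  rfl

/-- Isomorphism of marked balls of radius `n`. -/
def ballSetoid (d n : ℕ) : Setoid (Marked d) :=
  ⟨BallIso n, BallIso.refl n, BallIso.symm, BallIso.trans⟩

/-- `f_d(n)`: the number of isomorphism classes of marked balls of radius `n` of marked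
`d`-generated groups. -/
noncomputable def f (d n : ℕ) : ℕ := Nat.card (Quotient (ballSetoid d n))

/-- `g_d(n)`: the number of isomorphism classes of marked balls of radius `n` of finite marked
`d`-generated groups. -/
noncomputable def g (d n : ℕ) : ℕ :=
  Nat.card {c : Quotient (ballSetoid d n) // ∃ A : Marked d, Finite A.G ∧ Quotient.mk _ A = c}

/-! ### Balls and short relations -/

theorem iso_ev {n : ℕ} {A B : Marked d} {φ : ball A n ≃ ball B n}
    (h1 : φ ⟨1, one_mem_ball A n⟩ = ⟨1, one_mem_ball B n⟩)
    (h2 : ∀ (g h : ball A n) (i : Fin d), (g : A.G) * A.S i = h ↔ (φ g : B.G) * B.S i = φ h) :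
    ∀ (w : List (Fin d × Bool)) (hw : w.length ≤ n),
      (φ ⟨ev A.S w, w, hw, rfl⟩ : B.G) = ev B.S w := by
  intro w
  induction w using List.reverseRecOn with
  | nil =>
    intro hw
    exact congrArg Subtype.val h1
  | append_singleton w p ih =>
    intro hw
    have hw' : w.length ≤ n := by
      rw [List.length_append] at hw
      omega
    have ih' := ih hw'
    obtain ⟨i, b⟩ := p
    cases b
    · have h3 : (ev A.S (w ++ [(i, false)])) * A.S i = ev A.S w := by
        rw [ev_append, ev_singleton]
        show ev A.S w * (A.S i)⁻¹ * A.S i = _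
        rw [inv_mul_cancel_right]
      have h4 := (h2 ⟨ev A.S (w ++ [(i, false)]), _, hw, rfl⟩ ⟨ev A.S w, w, hw', rfl⟩ i).1 h3
      rw [ih'] at h4
      have e : ev B.S (w ++ [(i, false)]) = ev B.S w * (B.S i)⁻¹ := by
        rw [ev_append, ev_singleton]; rfl
      exact (eq_mul_inv_of_mul_eq h4).trans e.symm
    · have h3 : (ev A.S w) * A.S i = ev A.S (w ++ [(i, true)]) := by
        rw [ev_append, ev_singleton]
        rfl
      have h4 := (h2 ⟨ev A.S w, w, hw', rfl⟩ ⟨ev A.S (w ++ [(i, true)]), _, hw, rfl⟩ i).1 h3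
      rw [ih'] at h4
      have e : ev B.S (w ++ [(i, true)]) = ev B.S w * B.S i := by
        rw [ev_append, ev_singleton]; rfl
      exact h4.symm.trans e.symm

theorem ballIso_mp {n : ℕ} {A B : Marked d} (h : BallIso n A B) (w : List (Fin d × Bool))
    (hw : w.length ≤ 2 * n + 1) (h0 : ev A.S w = 1) : ev B.S w = 1 := by
  obtain ⟨φ, h1, h2⟩ := h
  have key := iso_ev h1 h2
  by_cases hn : w.length ≤ n
  · have h3 := key w hn
    have h4 : (⟨ev A.S w, w, hn, rfl⟩ : ball A n) = ⟨1, one_mem_ball A n⟩ := Subtype.ext h0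
    rw [h4, h1] at h3
    exact h3.symm
  · push Not at hn
    have hsplit : w = w.take n ++ (w.drop n) := (List.take_append_drop n w).symm
    obtain ⟨p, v, hv⟩ : ∃ p v, w.drop n = p :: v := by
      have : w.drop n ≠ [] := by
        rw [Ne, List.drop_eq_nil_iff]
        omega
      obtain ⟨p, v, e⟩ := List.exists_cons_of_ne_nil this
      exact ⟨p, v, e⟩
    set u := w.take n with hu
    have hul : u.length ≤ n := by rw [hu, List.length_take]; omega
    have hvl : v.length ≤ n := by
      have := congrArg List.length hv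
      rw [List.length_drop, List.length_cons] at this
      omega
    have hvl' : (winv v).length ≤ n := by rw [winv_length]; exact hvl
    rw [hsplit, hv] at h0 ⊢
    rw [ev_append, ev_cons] at h0 ⊢
    have e1 := key u hul
    have e2 := key (winv v) hvl'
    have e0 : ev A.S u * letter A.S p = ev A.S (winv v) := by
      rw [ev_winv, eq_inv_iff_mul_eq_one, mul_assoc]
      exact h0
    obtain ⟨i, b⟩ := p
    cases b
    · have h3 : ev A.S (winv v) * A.S i = ev A.S u := by
        rw [← e0]
        show ev A.S u * (A.S i)⁻¹ * A.S i = _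
        rw [inv_mul_cancel_right]
      have h4 := (h2 ⟨ev A.S (winv v), _, hvl', rfl⟩ ⟨ev A.S u, _, hul, rfl⟩ i).1 h3
      rw [e1, e2, ev_winv] at h4
      rw [← h4]
      show (ev B.S v)⁻¹ * B.S i * ((B.S i)⁻¹ * ev B.S v) = 1
      group
    · have h4 := (h2 ⟨ev A.S u, _, hul, rfl⟩ ⟨ev A.S (winv v), _, hvl', rfl⟩ i).1 e0
      rw [e1, e2, ev_winv] at h4
      rw [← mul_assoc]
      show ev B.S u * B.S i * ev B.S v = 1
      rw [h4, inv_mul_cancel]

theorem ev_eq_iff {n : ℕ} {A B : Marked d}
    (h : ∀ w : List (Fin d × Bool), w.length ≤ n → (ev A.S w = 1 ↔ ev B.S w = 1))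
    (u v : List (Fin d × Bool)) (huv : u.length + v.length ≤ n) :
    ev A.S u = ev A.S v ↔ ev B.S u = ev B.S v := by
  have h1 := h (winv u ++ v) (by rw [List.length_append, winv_length]; exact huv)
  rw [ev_append, ev_append, ev_winv, ev_winv, inv_mul_eq_one, inv_mul_eq_one] at h1
  exact h1

/-- Two marked balls of radius `n` are isomorphic iff the groups have the same relations of length
at most `2n+1`. -/
theorem ballIso_iff {n : ℕ} {A B : Marked d} :
    BallIso n A B ↔
      ∀ w : List (Fin d × Bool), w.length ≤ 2 * n + 1 → (ev A.S w = 1 ↔ ev B.S w = 1) := by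
  constructor
  · intro h w hw
    exact ⟨ballIso_mp h w hw, ballIso_mp h.symm w hw⟩
  · intro h
    have wA : ∀ x : ball A n, ∃ w : List (Fin d × Bool), w.length ≤ n ∧ ev A.S w = x :=
      fun x => x.2
    have wB : ∀ x : ball B n, ∃ w : List (Fin d × Bool), w.length ≤ n ∧ ev B.S w = x :=
      fun x => x.2
    choose a ha1 ha2 using wA
    choose b hb1 hb2 using wB
    have key := ev_eq_iff h
    refine ⟨⟨fun x => ⟨ev B.S (a x), a x, ha1 x, rfl⟩, fun y => ⟨ev A.S (b y), b y, hb1 y, rfl⟩,
      ?_, ?_⟩, ?_, ?_⟩
    · intro x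
      apply Subtype.ext
      show ev A.S (b _) = x
      rw [← ha2 x, key _ _ (Nat.le_trans (Nat.add_le_add (hb1 _) (ha1 x)) (by omega)), hb2]
    · intro y
      apply Subtype.ext
      show ev B.S (a _) = y
      rw [← hb2 y, ← key _ _ (Nat.le_trans (Nat.add_le_add (ha1 _) (hb1 y)) (by omega)), ha2]
    · apply Subtype.ext
      show ev B.S (a _) = 1
      rw [← ev_nil B.S, ← key _ _ (by have := ha1 ⟨1, one_mem_ball A n⟩; simp; omega), ha2]
      rfl
    · intro x y i
      show (x : A.G) * A.S i = y ↔ ev B.S (a x) * B.S i = ev B.S (a y)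
      have h1 := key (a x ++ [(i, true)]) (a y)
        (by have := ha1 x; have := ha1 y; rw [List.length_append, List.length_singleton]; omega)
      rw [ev_append, ev_append, ev_singleton, ev_singleton, ha2, ha2] at h1
      exact h1

/-! ### Upper bound -/

/-- Padding a word. -/
def code (L : ℕ) (w : List (Fin d × Bool)) : Fin L → Option (Fin d × Bool) := fun i => w[(i : ℕ)]?

theorem code_inj {L : ℕ} {u v : List (Fin d × Bool)} (hu : u.length ≤ L) (hv : v.length ≤ L)
    (h : code L u = code L v) : u = v := by
  apply List.ext_getElem?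
  intro i
  by_cases hi : i < L
  · exact congrFun h ⟨i, hi⟩
  · rw [List.getElem?_eq_none (by omega), List.getElem?_eq_none (by omega)]

theorem quot_inj (d n : ℕ) : Function.Injective (fun c : Quotient (ballSetoid d n) =>
    {p : Fin (2 * n + 1) → Option (Fin d × Bool) | ∃ w : List (Fin d × Bool),
      w.length ≤ 2 * n + 1 ∧ ev c.out.S w = 1 ∧ code (2 * n + 1) w = p}) := by
  intro c c' h
  have h1 : BallIso n c.out c'.out := by
    rw [ballIso_iff]
    intro w hw
    have h2 := congrArg (fun s => code (2 * n + 1) w ∈ s) h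
    simp only [Set.mem_ofPred_eq, eq_iff_iff] at h2
    constructor
    · intro h0
      obtain ⟨w', hw', h3, h4⟩ := h2.1 ⟨w, hw, h0, rfl⟩
      rw [code_inj hw' hw h4] at h3
      exact h3
    · intro h0
      obtain ⟨w', hw', h3, h4⟩ := h2.2 ⟨w, hw, h0, rfl⟩
      rw [code_inj hw' hw h4] at h3
      exact h3
  calc c = Quotient.mk _ c.out := (Quotient.out_eq c).symm
    _ = Quotient.mk _ c'.out := Quotient.sound h1
    _ = c' := Quotient.out_eq c'

instance (d n : ℕ) : Finite (Quotient (ballSetoid d n)) := Finite.of_injective _ (quot_inj d n)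

theorem f_le (d n : ℕ) : f d n ≤ 2 ^ (2 * d + 1) ^ (2 * n + 1) := by
  unfold f
  refine (Nat.card_le_card_of_injective _ (quot_inj d n)).trans (le_of_eq ?_)
  rw [Nat.card_eq_fintype_card, Fintype.card_set, Fintype.card_fun, Fintype.card_option,
    Fintype.card_prod, Fintype.card_fin, Fintype.card_bool, Fintype.card_fin, mul_comm d 2]

theorem g_le_f (d n : ℕ) : g d n ≤ f d n :=
  Nat.card_le_card_of_injective _ Subtype.val_injective

/-! ### Marked groups from tuples -/

/-- The marked group generated by a tuple. -/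
def ofTuple {H : Type} [Group H] (T : Fin d → H) : Marked d where
  G := Subgroup.closure (Set.range T)
  S := fun i => ⟨T i, Subgroup.subset_closure ⟨i, rfl⟩⟩
  gen := by
    have h := Subgroup.closure_closure_coe_preimage (k := Set.range T)
    convert h using 2
    ext x
    constructor
    · rintro ⟨i, rfl⟩
      exact ⟨i, rfl⟩
    · rintro ⟨i, hi⟩
      exact ⟨i, Subtype.ext hi⟩

theorem ofTuple_ev {H : Type} [Group H] (T : Fin d → H) (w : List (Fin d × Bool)) :
    ev (ofTuple T).S w = 1 ↔ ev T w = 1 := by
  have h := ev_map (Subgroup.closure (Set.range T)).subtype (ofTuple T).S w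
  have h2 : (fun i => (Subgroup.closure (Set.range T)).subtype ((ofTuple T).S i)) = T := rfl
  rw [h2] at h
  rw [← h]
  exact (map_eq_one_iff _ (Subgroup.subtype_injective _)).symm

/-- Independent words give many balls. -/
theorem le_g {n : ℕ} {D : Type} [Fintype D] [DecidableEq D] {H : Type} [Group H] [Finite H]
    (T : Set D → Fin d → H) (w : D → List (Fin d × Bool)) (hw : ∀ v, (w v).length ≤ 2 * n + 1)
    (h : ∀ J v, ev (T J) (w v) = 1 ↔ v ∉ J) : 2 ^ Fintype.card D ≤ g d n := by
  have h1 : Function.Injective (fun J : Set D =>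
      (⟨Quotient.mk (ballSetoid d n) (ofTuple (T J)), ofTuple (T J),
        inferInstanceAs (Finite (Subgroup.closure (Set.range (T J)))), rfl⟩ :
        {c : Quotient (ballSetoid d n) // ∃ A : Marked d, Finite A.G ∧ Quotient.mk _ A = c})) := by
    intro J J' hJ
    have h2 := Subtype.ext_iff.1 hJ
    have h3 : BallIso n (ofTuple (T J)) (ofTuple (T J')) := Quotient.exact h2
    rw [ballIso_iff] at h3
    ext v
    have h4 := h3 (w v) (hw v)
    rw [ofTuple_ev, ofTuple_ev, h, h] at h4
    exact not_iff_not.1 h4
  have h5 := Nat.card_le_card_of_injective _ h1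
  rwa [Nat.card_eq_fintype_card, Fintype.card_set] at h5

end Pool.Agent.X185.MB
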