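import Pool.Agent.X185.MB.Perm

/-!
The double exponential lower bound for the number of marked balls of finite groups, and the exact
count for one generator.
-/

set_option autoImplicit false

namespace Pool.Agent.X185.MB

open Equiv Fin.NatCast Fin.CommRing

variable {n e : ℕ}

/-- A stage of the word. -/
def stage (e : ℕ) (b : Bool) : List (Fin (e + 2) × Bool) :=
  if b then [(0, false), (0, false), (1, true)] else [(1, true)]

theorem stage_length (e : ℕ) (b : Bool) : (stage e b).length ≤ 3 := by
  cases b <;> simp [stage]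

/-- The word for the translation `conf v`. -/
def qword (e : ℕ) (v : Fin n → Bool) : List (Fin (e + 2) × Bool) :=
  (List.range (n + 2)).flatMap (fun j : ℕ => stage e (decide (conf v (j : Fin (n + 2)) = 1)))

theorem qword_length (e : ℕ) (v : Fin n → Bool) : (qword e v).length ≤ 3 * (n + 2) := by
  unfold qword
  have h : ∀ l : List ℕ, (l.flatMap
      (fun j : ℕ => stage e (decide (conf v (j : Fin (n + 2)) = 1)))).length ≤ 3 * l.length := by
    intro l
    induction l with
    | nil => simp
    | cons a l ih =>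
      rw [List.flatMap_cons, List.length_append, List.length_cons]
      have := stage_length e (decide (conf v (a : Fin (n + 2)) = 1))
      omega
  have := h (List.range (n + 2))
  rwa [List.length_range] at this

theorem ev_flatMap {d : ℕ} {H : Type*} [Group H] (T : Fin d → H) (l : List ℕ)
    (F : ℕ → List (Fin d × Bool)) : ev T (l.flatMap F) = (l.map (fun j => ev T (F j))).prod := by
  induction l with
  | nil => rfl
  | cons a l ih => rw [List.flatMap_cons, ev_append, ih, List.map_cons, List.prod_cons]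

theorem ev_qword {T : Fin (e + 2) → Perm (Om n)} (h0 : (T 0)⁻¹ * (T 0)⁻¹ = Tr e0)
    (h1 : T 1 = rot) (v : Fin n → Bool) : ev T (qword e v) = Tr (conf v) := by
  unfold qword
  rw [ev_flatMap, ← prod_all (conf v)]
  congr 1
  apply List.map_congr_left
  intro j _
  rcases conf_zero_or_one v (j : Fin (n + 2)) with h | h
  · rw [h]
    have : decide ((0 : ZMod 3) = 1) = false := by decide
    rw [this, zero_smul, Tr_zero, one_mul, ← h1]
    show ev T [(1, true)] = _
    rw [ev_singleton]
    rfl
  · rw [h]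
    have : decide ((1 : ZMod 3) = 1) = true := by decide
    rw [this, one_smul, ← h0, ← h1]
    show ev T [(0, false), (0, false), (1, true)] = _
    rw [ev_cons, ev_cons, ev_singleton, ← mul_assoc]
    rfl

/-- The word `x³`. -/
def xxx (e : ℕ) : List (Fin (e + 2) × Bool) := [(0, true), (0, true), (0, true)]

theorem ev_xxx {H : Type*} [Group H] (T : Fin (e + 2) → H) :
    ev T (xxx e) = T 0 * T 0 * T 0 := by
  unfold xxx
  rw [ev_cons, ev_cons, ev_singleton, ← mul_assoc]
  rfl

/-- The word `[x³, q x³ q⁻¹]`. -/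
def cword (e : ℕ) (v : Fin n → Bool) : List (Fin (e + 2) × Bool) :=
  xxx e ++ (qword e v ++ xxx e ++ winv (qword e v)) ++ winv (xxx e) ++
    winv (qword e v ++ xxx e ++ winv (qword e v))

theorem cword_length (e : ℕ) (v : Fin n → Bool) : (cword e v).length ≤ 12 * n + 36 := by
  unfold cword
  simp only [List.length_append, winv_length]
  have h1 := qword_length e v
  have h2 : (xxx e).length = 3 := rfl
  omega

theorem ev_cword {H : Type*} [Group H] (T : Fin (e + 2) → H) (v : Fin n → Bool) :
    ev T (cword e v) = 1 ↔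
      ev T (xxx e) * (ev T (qword e v) * ev T (xxx e) * (ev T (qword e v))⁻¹) =
      ev T (qword e v) * ev T (xxx e) * (ev T (qword e v))⁻¹ * ev T (xxx e) := by
  unfold cword
  simp only [ev_append, ev_winv]
  rw [mul_inv_eq_one, mul_inv_eq_iff_eq_mul]

/-- The tuples. -/
noncomputable def tup (n e : ℕ) (J : Set (Fin n → Bool)) (i : Fin (e + 2)) :
    (Fin n → Bool) → Perm (Om n) := fun v =>
  open Classical in
  if i = 0 then (if v ∈ J then sw v * Tr e0 else Tr e0) else if i = 1 then rot else 1

theorem e0_three : (e0 : Om n) + e0 + e0 = 0 := by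
  ext i : 1
  have : ∀ x : ZMod 3, x + x + x = 0 := by decide
  exact this _

theorem Tr_e0_sq : (Tr (e0 : Om n))⁻¹ * (Tr e0)⁻¹ = Tr e0 := by
  rw [Tr_inv, Tr_mul]
  congr 1
  have := e0_three (n := n)
  have h : (-e0 + -e0 : Om n) = e0 - (e0 + e0 + e0) := by abel
  rw [h, this, sub_zero]

theorem key1 (v : Fin n → Bool) :
    (sw v * Tr e0)⁻¹ * (sw v * Tr e0)⁻¹ = Tr (e0 : Om n) := by
  have h1 : (sw v)⁻¹ = sw v := inv_eq_iff_mul_eq_one.2 (sw_mul_self v)
  have hc : Commute (sw v) (Tr (e0 : Om n)) := sw_comm v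
  rw [mul_inv_rev, h1]
  have h2 : (Tr (e0 : Om n))⁻¹ * sw v = sw v * (Tr e0)⁻¹ := hc.inv_right.eq.symm
  calc (Tr (e0 : Om n))⁻¹ * sw v * ((Tr e0)⁻¹ * sw v)
      = (Tr (e0 : Om n))⁻¹ * (sw v * (Tr e0)⁻¹) * sw v := by simp only [mul_assoc]
    _ = (Tr (e0 : Om n))⁻¹ * ((Tr e0)⁻¹ * sw v) * sw v := by rw [h2]
    _ = (Tr (e0 : Om n))⁻¹ * (Tr e0)⁻¹ * (sw v * sw v) := by simp only [mul_assoc]
    _ = Tr e0 := by rw [sw_mul_self, mul_one, Tr_e0_sq]

theorem key2 (v : Fin n → Bool) :
    sw v * Tr e0 * (sw v * Tr e0) * (sw v * Tr e0) = sw v := by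
  have h1 := key1 v
  have h2 : (sw v * Tr (e0 : Om n)) * (sw v * Tr e0) = (Tr e0)⁻¹ := by
    rw [← inv_inj, inv_inv, mul_inv_rev]
    exact h1
  rw [h2, sw_comm, inv_mul_cancel_left]

theorem key3 : Tr (e0 : Om n) * Tr e0 * Tr e0 = 1 := by
  rw [Tr_mul, Tr_mul, e0_three, Tr_zero]

theorem ev_tup (J : Set (Fin n → Bool)) (u : Fin n → Bool) :
    ev (tup n e J) (cword e u) = 1 ↔ u ∉ J := by
  have h10 : (1 : Fin (e + 2)) ≠ 0 := by
    intro h
    have := congrArg Fin.val h
    simp at this
  have hcoord : ∀ v, ev (tup n e J) (cword e u) v = ev (fun i => tup n e J i v) (cword e u) :=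
    fun v => ev_map (Pi.evalMonoidHom (fun _ : Fin n → Bool => Perm (Om n)) v) (tup n e J)
      (cword e u)
  have hin : ∀ v, v ∈ J → (ev (tup n e J) (cword e u) v = 1 ↔ u ≠ v) := by
    intro v hv
    rw [hcoord, ev_cword]
    have t0 : tup n e J 0 v = sw v * Tr e0 := by
      unfold tup; rw [if_pos rfl, if_pos hv]
    have t1 : tup n e J 1 v = rot := by
      unfold tup; rw [if_neg h10, if_pos rfl]
    rw [ev_xxx, ev_qword (T := fun i => tup n e J i v)
      (show (tup n e J 0 v)⁻¹ * (tup n e J 0 v)⁻¹ = _ by rw [t0]; exact key1 v) t1]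
    rw [t0, key2]
    constructor
    · intro h h'
      subst h'
      exact not_comm u h
    · intro h
      exact (disj h).commute.eq
  have hout : ∀ v, v ∉ J → ev (tup n e J) (cword e u) v = 1 := by
    intro v hv
    rw [hcoord, ev_cword]
    have t0 : tup n e J 0 v = Tr e0 := by
      unfold tup; rw [if_pos rfl, if_neg hv]
    rw [ev_xxx]
    show tup n e J 0 v * tup n e J 0 v * tup n e J 0 v * _ = _
    rw [t0, key3]
    simp
  constructor
  · intro h hu
    have := (hin u hu).1 (congrFun h u)
    exact this rfl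
  · intro h
    funext v
    by_cases hv : v ∈ J
    · exact (hin v hv).2 (fun h' => h (h' ▸ hv))
    · exact hout v hv

/-- The double exponential lower bound. -/
theorem two_pow_le_g (e n N : ℕ) (h : 12 * n + 36 ≤ 2 * N + 1) : 2 ^ 2 ^ n ≤ g (e + 2) N := by
  have h1 := le_g (n := N) (D := Fin n → Bool) (tup n e) (cword e)
    (fun v => (cword_length e v).trans h) (fun J v => ev_tup J v)
  rw [Fintype.card_fun, Fintype.card_bool, Fintype.card_fin] at h1
  exact h1

/-! ### One generator -/

/-- exponent sum -/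
def zsum (w : List (Fin 1 × Bool)) : ℤ := (w.map (fun p => if p.2 then (1 : ℤ) else -1)).sum

theorem zsum_le (w : List (Fin 1 × Bool)) : (zsum w).natAbs ≤ w.length := by
  induction w with
  | nil => simp [zsum]
  | cons p w ih =>
    have : zsum (p :: w) = (if p.2 then (1 : ℤ) else -1) + zsum w := by
      simp [zsum]
    rw [this, List.length_cons]
    cases p.2
    · simp only [Bool.false_eq_true, if_false]; omega
    · simp only [if_true]; omega


theorem ev_zsum {H : Type*} [Group H] (T : Fin 1 → H) (w : List (Fin 1 × Bool)) :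
    ev T w = T 0 ^ zsum w := by
  induction w with
  | nil => simp [ev, zsum]
  | cons p w ih =>
    have h1 : zsum (p :: w) = (if p.2 then (1 : ℤ) else -1) + zsum w := by
      simp [zsum]
    rw [ev_cons, ih, h1, zpow_add]
    congr 1
    obtain ⟨i, b⟩ := p
    have hi : i = 0 := Subsingleton.elim _ _
    subst hi
    cases b <;> simp [letter]

theorem zsum_replicate (k : ℕ) : zsum (List.replicate k (0, true)) = k := by
  simp [zsum]

theorem ev_eq_one_iff {H : Type*} [Group H] (T : Fin 1 → H) (w : List (Fin 1 × Bool)) :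
    ev T w = 1 ↔ (orderOf (T 0) : ℤ) ∣ zsum w := by
  rw [ev_zsum, orderOf_dvd_iff_zpow_eq_one]

/-- The order of the generator, if at most `2n+1`, and otherwise `0`. -/
noncomputable def kap (n : ℕ) (A : Marked 1) : ℕ :=
  if orderOf (A.S 0) ≤ 2 * n + 1 then orderOf (A.S 0) else 0

theorem kap_lt (n : ℕ) (A : Marked 1) : kap n A < 2 * n + 2 := by
  unfold kap
  split_ifs <;> omega

theorem ballIso_one_iff (n : ℕ) (A B : Marked 1) : BallIso n A B ↔ kap n A = kap n B := by
  rw [ballIso_iff]
  have aux : ∀ A B : Marked 1, (∀ w : List (Fin 1 × Bool), w.length ≤ 2 * n + 1 →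
      (ev A.S w = 1 ↔ ev B.S w = 1)) → kap n A ≠ 0 → kap n B = kap n A := by
    intro A B h hA
    unfold kap at hA ⊢
    have hA2 : orderOf (A.S 0) ≤ 2 * n + 1 := by
      by_contra h0
      rw [if_neg h0] at hA
      exact hA rfl
    rw [if_pos hA2] at hA ⊢
    have h1 := h (List.replicate (orderOf (A.S 0)) (0, true)) (by simpa using hA2)
    rw [ev_eq_one_iff, ev_eq_one_iff, zsum_replicate] at h1
    have h2 := h1.1 dvd_rfl
    have h3 : orderOf (B.S 0) ∣ orderOf (A.S 0) := by exact_mod_cast h2
    have h4 : orderOf (B.S 0) ≤ orderOf (A.S 0) := Nat.le_of_dvd (by omega) h3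
    have h5 := h (List.replicate (orderOf (B.S 0)) (0, true)) (by simp; omega)
    rw [ev_eq_one_iff, ev_eq_one_iff, zsum_replicate] at h5
    have h6 := h5.2 dvd_rfl
    have h7 : orderOf (A.S 0) ∣ orderOf (B.S 0) := by exact_mod_cast h6
    rw [if_pos (h4.trans hA2)]
    exact Nat.dvd_antisymm h3 h7
  constructor
  · intro h
    by_cases hA : kap n A = 0
    · by_cases hB : kap n B = 0
      · rw [hA, hB]
      · exact aux B A (fun w hw => (h w hw).symm) hB
    · exact (aux A B h hA).symm
  · intro h w hw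
    rw [ev_eq_one_iff, ev_eq_one_iff]
    have hz := (zsum_le w).trans hw
    by_cases hA : kap n A = 0
    · have h0 : ∀ C : Marked 1, kap n C = 0 → ((orderOf (C.S 0) : ℤ) ∣ zsum w ↔ zsum w = 0) := by
        intro C hC
        constructor
        · intro h1
          unfold kap at hC
          by_cases h2 : orderOf (C.S 0) ≤ 2 * n + 1
          · rw [if_pos h2] at hC
            rw [hC] at h1
            exact zero_dvd_iff.1 (by exact_mod_cast h1)
          · by_contra h3
            have h4 := Int.natAbs_dvd_natAbs.2 h1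
            rw [Int.natAbs_natCast] at h4
            have := Nat.le_of_dvd (Int.natAbs_pos.2 h3) h4
            omega
        · intro h1
          rw [h1]
          exact dvd_zero _
      rw [h0 A hA, h0 B (h ▸ hA)]
    · have h1 : ∀ C : Marked 1, kap n C ≠ 0 → kap n C = orderOf (C.S 0) := by
        intro C hC
        unfold kap at hC ⊢
        by_cases h2 : orderOf (C.S 0) ≤ 2 * n + 1
        · rw [if_pos h2]
        · rw [if_neg h2] at hC
          exact absurd rfl hC
      rw [← h1 A hA, ← h1 B (h ▸ hA), h]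

/-- The marked cyclic group of order `k`. -/
noncomputable def cyc (k : ℕ) : Marked 1 :=
  ofTuple (fun _ : Fin 1 => (Multiplicative.ofAdd 1 : Multiplicative (ZMod k)))

theorem orderOf_cyc (k : ℕ) : orderOf ((cyc k).S 0) = k := by
  have h1 : orderOf ((cyc k).S 0) = orderOf (Multiplicative.ofAdd 1 : Multiplicative (ZMod k)) :=
    Subgroup.orderOf_mk _ _
  rw [h1, orderOf_ofAdd_eq_addOrderOf, ZMod.addOrderOf_one]

instance (k : ℕ) [NeZero k] : Finite (cyc k).G :=
  inferInstanceAs (Finite (Subgroup.closure (Set.range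
    (fun _ : Fin 1 => (Multiplicative.ofAdd 1 : Multiplicative (ZMod k))))))

/-- The invariant on classes. -/
noncomputable def kapQ (n : ℕ) : Quotient (ballSetoid 1 n) → Fin (2 * n + 2) :=
  Quotient.lift (fun A => (⟨kap n A, kap_lt n A⟩ : Fin (2 * n + 2)))
    (fun A B h => Fin.ext ((ballIso_one_iff n A B).1 h))

theorem kapQ_inj (n : ℕ) : Function.Injective (kapQ n) := by
  intro c c' h
  induction c using Quotient.inductionOn
  induction c' using Quotient.inductionOn
  rename_i A B
  exact Quotient.sound ((ballIso_one_iff n A B).2 (Fin.ext_iff.1 h))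

theorem exists_finite (n : ℕ) (k : Fin (2 * n + 2)) :
    ∃ A : Marked 1, Finite A.G ∧ kap n A = k := by
  by_cases h : (k : ℕ) = 0
  · haveI : NeZero (2 * n + 2) := ⟨by omega⟩
    refine ⟨cyc (2 * n + 2), inferInstance, ?_⟩
    unfold kap
    rw [orderOf_cyc, if_neg (by omega), h]
  · haveI : NeZero (k : ℕ) := ⟨h⟩
    refine ⟨cyc k, inferInstance, ?_⟩
    unfold kap
    rw [orderOf_cyc, if_pos (by omega)]

theorem f_one (n : ℕ) : f 1 n = 2 * n + 2 := by
  unfold f
  rw [Nat.card_eq_of_bijective (kapQ n) ⟨kapQ_inj n, fun k => ?_⟩, Nat.card_fin]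
  obtain ⟨A, -, h⟩ := exists_finite n k
  exact ⟨Quotient.mk _ A, Fin.ext h⟩

theorem g_one (n : ℕ) : g 1 n = 2 * n + 2 := by
  unfold g
  rw [Nat.card_eq_of_bijective (fun c : {c : Quotient (ballSetoid 1 n) //
      ∃ A : Marked 1, Finite A.G ∧ Quotient.mk _ A = c} => kapQ n c.1) ⟨?_, fun k => ?_⟩,
    Nat.card_fin]
  · intro c c' h
    exact Subtype.ext (kapQ_inj n h)
  · obtain ⟨A, hA, h⟩ := exists_finite n k
    exact ⟨⟨Quotient.mk _ A, A, hA, rfl⟩, Fin.ext h⟩

end Pool.Agent.X185.MB
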