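import Pool.Agent.X185.MB.Defs

/-!
Finite two-generated groups with exponentially many independent relations.
-/

set_option autoImplicit false

namespace Pool.Agent.X185.MB

open Equiv Fin.NatCast Fin.CommRing

/-- lamp configurations modulo 3 on a circle of length `n + 2`. -/
abbrev Om (n : ℕ) : Type := Fin (n + 2) → ZMod 3

variable {n : ℕ}

/-- translation -/
def Tr (a : Om n) : Perm (Om n) := Equiv.addLeft a

theorem Tr_apply (a z : Om n) : Tr a z = a + z := rfl

theorem Tr_mul (a b : Om n) : Tr a * Tr b = Tr (a + b) := by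
  ext z : 1
  rw [Perm.mul_apply, Tr_apply, Tr_apply, Tr_apply, add_assoc]

theorem Tr_zero : Tr (0 : Om n) = 1 := by
  ext z : 1
  rw [Tr_apply, zero_add, Perm.one_apply]

theorem Tr_inv (a : Om n) : (Tr a)⁻¹ = Tr (-a) := by
  rw [inv_eq_iff_mul_eq_one, Tr_mul, add_neg_cancel, Tr_zero]

/-- rotation -/
def rot : Perm (Om n) where
  toFun z := fun i => z (i - 1)
  invFun z := fun i => z (i + 1)
  left_inv z := by ext i : 1; simp
  right_inv z := by ext i : 1; simp

theorem rot_apply (z : Om n) (i : Fin (n + 2)) : rot z i = z (i - 1) := rfl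

theorem rot_pow_apply (k : ℕ) (z : Om n) (i : Fin (n + 2)) :
    (rot ^ k) z i = z (i - (k : Fin (n + 2))) := by
  induction k generalizing z i with
  | zero => simp
  | succ k ih =>
    rw [pow_succ, Perm.mul_apply, ih, rot_apply]
    congr 1
    push_cast
    ring

theorem rot_pow_add (k : ℕ) (z w : Om n) : (rot ^ k) (z + w) = (rot ^ k) z + (rot ^ k) w := by
  ext i : 1
  rw [Pi.add_apply, rot_pow_apply, rot_pow_apply, rot_pow_apply, Pi.add_apply]

theorem rot_pow_Tr (k : ℕ) (a : Om n) : rot ^ k * Tr a = Tr ((rot ^ k) a) * rot ^ k := by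
  ext z : 1
  rw [Perm.mul_apply, Perm.mul_apply, Tr_apply, Tr_apply, rot_pow_add]

theorem rot_pow_card : (rot : Perm (Om n)) ^ (n + 2) = 1 := by
  ext z i : 2
  rw [rot_pow_apply, Perm.one_apply]
  congr 1
  have : (((n + 2 : ℕ)) : Fin (n + 2)) = 0 := Fin.natCast_self _
  rw [this, sub_zero]

/-- the unit lamp at `0`. -/
def e0 : Om n := Pi.single 0 1

/-- product of the first `k` stages. -/
theorem prod_stage (c : Om n) (k : ℕ) (hk : k ≤ n + 2) :
    ((List.range k).map (fun j : ℕ => Tr (c (j : Fin (n + 2)) • (e0 : Om n)) * rot)).prod =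
      Tr (fun i => if (i : ℕ) < k then c i else 0) * rot ^ k := by
  induction k with
  | zero =>
    have : (fun i : Fin (n + 2) => if (i : ℕ) < 0 then c i else 0) = 0 := by
      ext i : 1
      simp
    rw [this, Tr_zero]
    simp
  | succ k ih =>
    rw [List.range_succ, List.map_append, List.prod_append, ih (by omega), List.map_singleton,
      List.prod_singleton, mul_assoc, ← mul_assoc (rot ^ k), rot_pow_Tr, mul_assoc, ← pow_succ,
      ← mul_assoc, Tr_mul]
    congr 2
    ext i : 1
    rw [Pi.add_apply, rot_pow_apply, Pi.smul_apply]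
    have hkv : ((k : Fin (n + 2)) : ℕ) = k := by
      rw [Fin.val_natCast]
      exact Nat.mod_eq_of_lt (by omega)
    by_cases h : i = (k : Fin (n + 2))
    · have h2 : (i : ℕ) = k := by rw [h, hkv]
      rw [if_neg (by omega), if_pos (by omega), ← h, sub_self]
      simp [e0]
    · have h2 : (i : ℕ) ≠ k := by
        intro h3
        apply h
        apply Fin.ext
        rw [hkv, h3]
      have h4 : i - (k : Fin (n + 2)) ≠ 0 := sub_ne_zero.2 h
      have h5 : (e0 : Om n) (i - (k : Fin (n + 2))) = 0 := by
        unfold e0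
        rw [Pi.single_eq_of_ne h4]
      rw [h5, smul_zero, add_zero]
      by_cases h6 : (i : ℕ) < k
      · rw [if_pos h6, if_pos (by omega)]
      · rw [if_neg h6, if_neg (by omega)]

theorem prod_all (c : Om n) :
    ((List.range (n + 2)).map (fun j : ℕ => Tr (c (j : Fin (n + 2)) • (e0 : Om n)) * rot)).prod =
      Tr c := by
  rw [prod_stage c _ le_rfl, rot_pow_card, mul_one]
  congr 1
  ext i : 1
  rw [if_pos i.2]

/-- The configuration of a binary vector: `0` at `0`, `1` at `1`. -/
def conf (v : Fin n → Bool) : Om n :=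
  Fin.cons 0 (Fin.cons 1 (fun j => if v j then 1 else 0))

theorem conf_one (v : Fin n → Bool) : conf v 1 = 1 := rfl

theorem conf_succ (v : Fin n → Bool) (j : Fin n) : conf v j.succ.succ = if v j then 1 else 0 := rfl

theorem conf_zero (v : Fin n → Bool) : conf v 0 = 0 := rfl

theorem conf_zero_or_one (v : Fin n → Bool) (i : Fin (n + 2)) : conf v i = 0 ∨ conf v i = 1 := by
  refine Fin.cases ?_ (fun i => ?_) i
  · exact Or.inl rfl
  · refine Fin.cases ?_ (fun i => ?_) i
    · exact Or.inr rfl
    · rw [conf_succ]
      split_ifs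
      · exact Or.inr rfl
      · exact Or.inl rfl

theorem one_ne_zero' : (1 : Fin (n + 2)) ≠ 0 := by
  intro h
  have := congrArg Fin.val h
  simp at this

/-- supported at `0`. -/
def P0 (z : Om n) : Prop := ∀ j, j ≠ 0 → z j = 0

noncomputable instance (z : Om n) : Decidable (P0 z) := Classical.propDecidable _

theorem P0_add_e0 (z : Om n) : P0 (e0 + z) ↔ P0 z := by
  have : ∀ j : Fin (n + 2), j ≠ 0 → ((e0 : Om n) + z) j = z j := by
    intro j hj
    rw [Pi.add_apply]
    unfold e0
    rw [Pi.single_eq_of_ne hj, zero_add]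
  constructor
  · intro h j hj
    rw [← this j hj]; exact h j hj
  · intro h j hj
    rw [this j hj]; exact h j hj

/-- The involution: `z ↔ z + c` for `z` supported at `0`. -/
noncomputable def swf (c : Om n) (z : Om n) : Om n :=
  if P0 z then z + c else if P0 (z - c) then z - c else z

theorem swf_swf {c : Om n} (hc : c 1 = 1) (z : Om n) : swf c (swf c z) = z := by
  have h1 : ∀ z : Om n, P0 z → ¬ P0 (z + c) := by
    intro z h h'
    have e1 := h 1 one_ne_zero'
    have e2 := h' 1 one_ne_zero'
    rw [Pi.add_apply, e1, hc] at e2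
    exact absurd e2 (by decide)
  unfold swf
  by_cases h : P0 z
  · rw [if_pos h, if_neg (h1 z h), add_sub_cancel_right, if_pos h]
  · rw [if_neg h]
    by_cases h' : P0 (z - c)
    · rw [if_pos h', if_pos h', sub_add_cancel]
    · rw [if_neg h', if_neg h, if_neg h']

/-- The involution as a permutation. -/
noncomputable def sw (v : Fin n → Bool) : Perm (Om n) where
  toFun := swf (conf v)
  invFun := swf (conf v)
  left_inv := swf_swf (conf_one v)
  right_inv := swf_swf (conf_one v)

theorem sw_mul_self (v : Fin n → Bool) : sw v * sw v = 1 := by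
  ext z : 1
  exact swf_swf (conf_one v) z

theorem sw_comm (v : Fin n → Bool) : sw v * Tr e0 = Tr e0 * sw v := by
  ext z : 1
  show swf (conf v) (e0 + z) = e0 + swf (conf v) z
  unfold swf
  have h1 : e0 + z - conf v = e0 + (z - conf v) := by abel
  rw [h1]
  simp only [P0_add_e0]
  split_ifs
  · abel
  · rfl
  · rfl

/-- The conjugates commute for different indices. -/
theorem disj {u v : Fin n → Bool} (h : u ≠ v) :
    Perm.Disjoint (sw v) (Tr (conf u) * sw v * (Tr (conf u))⁻¹) := by
  intro z
  by_contra hcon
  push Not at hcon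
  obtain ⟨h1, h2⟩ := hcon
  have h1' : P0 z ∨ P0 (z - conf v) := by
    by_contra h3
    push Not at h3
    apply h1
    show swf (conf v) z = z
    unfold swf
    rw [if_neg h3.1, if_neg h3.2]
  have h2' : P0 (z - conf u) ∨ P0 (z - conf u - conf v) := by
    by_contra h3
    push Not at h3
    apply h2
    rw [Tr_inv, Perm.mul_apply, Perm.mul_apply, Tr_apply, Tr_apply]
    show conf u + swf (conf v) (-conf u + z) = z
    have h4 : -conf u + z = z - conf u := by abel
    rw [h4]
    unfold swf
    rw [if_neg h3.1, if_neg h3.2]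
    abel
  rcases h1' with h1' | h1' <;> rcases h2' with h2' | h2'
  · have a := h1' 1 one_ne_zero'
    have b := h2' 1 one_ne_zero'
    rw [Pi.sub_apply, a, conf_one] at b
    exact absurd b (by decide)
  · have a := h1' 1 one_ne_zero'
    have b := h2' 1 one_ne_zero'
    rw [Pi.sub_apply, Pi.sub_apply, a, conf_one, conf_one] at b
    exact absurd b (by decide)
  · apply h
    ext j : 1
    have hj : j.succ.succ ≠ 0 := Fin.succ_ne_zero _
    have a := h1' _ hj
    have b := h2' _ hj
    rw [Pi.sub_apply, conf_succ] at a b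
    have c : (if u j = true then (1 : ZMod 3) else 0) = if v j = true then 1 else 0 :=
      (sub_eq_zero.1 b).symm.trans (sub_eq_zero.1 a)
    revert c
    cases u j <;> cases v j <;> decide
  · have a := h1' 1 one_ne_zero'
    have b := h2' 1 one_ne_zero'
    rw [Pi.sub_apply, conf_one] at a
    rw [Pi.sub_apply, Pi.sub_apply, conf_one, conf_one] at b
    rw [a] at b
    exact absurd b (by decide)

theorem not_comm (v : Fin n → Bool) :
    ¬ sw v * (Tr (conf v) * sw v * (Tr (conf v))⁻¹) = Tr (conf v) * sw v * (Tr (conf v))⁻¹ * sw v := by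
  intro h
  have h1 := congrFun (congrArg DFunLike.coe h) (0 : Om n)
  rw [Perm.mul_apply, Perm.mul_apply, Tr_inv] at h1
  rw [Perm.mul_apply, Perm.mul_apply, Perm.mul_apply, Perm.mul_apply] at h1
  have hP0 : P0 (0 : Om n) := fun _ _ => rfl
  have a0 : sw v (0 : Om n) = conf v := by
    show swf (conf v) 0 = conf v
    unfold swf
    rw [if_pos hP0, zero_add]
  have a1 : Tr (-conf v) (0 : Om n) = - conf v := by rw [Tr_apply, add_zero]
  have a2 : sw v (- conf v) = - conf v := by
    show swf (conf v) (- conf v) = - conf v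
    unfold swf
    rw [if_neg, if_neg]
    · intro h
      have := h 1 one_ne_zero'
      rw [Pi.sub_apply, Pi.neg_apply, conf_one] at this
      exact absurd this (by decide)
    · intro h
      have := h 1 one_ne_zero'
      rw [Pi.neg_apply, conf_one] at this
      exact absurd this (by decide)
  have a3 : Tr (conf v) (- conf v) = (0 : Om n) := by rw [Tr_apply, add_neg_cancel]
  have a4 : Tr (-conf v) (conf v) = (0 : Om n) := by rw [Tr_apply, neg_add_cancel]
  rw [a1, a2, a3, a0, a4, a0, Tr_apply] at h1
  have h2 := congrFun h1 1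
  rw [Pi.add_apply, conf_one] at h2
  exact absurd h2 (by decide)

end Pool.Agent.X185.MB
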